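import Pool.Agent.N645.NZ.Main

/-!
# It is consistent that `non(N) < 𝔷`

* There is a preordered set of forcing conditions which preserves all cardinals and forces Martin's
  axiom for `ℵ₁` dense sets (`MartinFor Om1`; see `Pool.Agent.W684.FM`).
* If Martin's axiom for `ℵ₁` dense sets holds, then there are a set `K` (of cardinality `ℵ₁`) and a
  preordered set of conditions (the measure algebra which adds `ℵ₂` random reals), which satisfies
  the countable chain condition, every condition of which forces the sentence `NZ`: there is a
  family of elements of `2^ω`, indexed by `K`, which is not null; no family of null sets indexed by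
  `K` covers `2^ω`; and the combinatorial statement `Sel K` holds.
* The sentence `NZ` implies that `non(N) ≤ |K| < 𝔷`.

Therefore `non(N) < 𝔷` is consistent (a two-step forcing argument: first Martin's axiom is forced,
then `NZ` is forced over the extension).

A sentence of the forcing language is the set of the conditions which force it; `fnot`, `fand`,
`fall` are the usual clauses of the definition of forcing and the other connectives are defined from
them classically. The sentence `NZHolds P K` is the translation of the proposition `NZFor K` into
the forcing language. `nonN` is the least cardinality of a subset of `2^ω` which is not null, and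
`zed` is the least weight of an infinite compact Hausdorff space without non-trivial convergent
sequences.
-/

set_option autoImplicit false

namespace Pool.Agent.Results.MP_3ec723_lc.NonNLtZ

open Pool.Agent.N645.NZ

theorem result :
    -- Martin's axiom for `ℵ₁` dense sets can be forced
    (∃ (P : Type) (_ : Preorder P), Nonempty P ∧ ∀ p : P,
      p ∈ Pool.Agent.Helper669.Forcing.CardinalsPreserved.{0, 0} P ∧
      p ∈ Pool.Agent.W684.FM.OmegaOnePreserved P ∧
      p ∈ Pool.Agent.W684.FM.MartinHolds P Pool.Agent.W684.FM.Om1) ∧
    (Pool.Agent.W684.FM.MartinFor Pool.Agent.W684.FM.Om1 ↔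
      Pool.Agent.W684.MartinAxiomAleph1) ∧
    -- under Martin's axiom, the sentence `NZ` can be forced
    (Pool.Agent.W684.FM.MartinFor Pool.Agent.W684.FM.Om1 →
      ∃ (K P : Type) (_ : Preorder P), Nonempty P ∧
        (∀ A : Set P, (∀ p ∈ A, ∀ q ∈ A, p ≠ q → ¬ ∃ r, r ≤ p ∧ r ≤ q) → A.Countable) ∧
        ∀ p : P, p ∈ NZHolds P K) ∧
    -- the sentence `NZ` implies `non(N) < 𝔷`
    (∀ K : Type, NZFor K → nonN < Pool.Agent.R582.ZZ.zed) :=
  ⟨Pool.Agent.W684.FM.exists_forcing Pool.Agent.W684.FM.Om1,
    Pool.Agent.W684.FM.martinFor_om1_iff, exists_forcing,
    fun _ h => (nonN_le h.1).trans_lt (lt_zed h)⟩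

end Pool.Agent.Results.MP_3ec723_lc.NonNLtZ
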